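import Pool.Agent.W550.Dual.Main

/-!
# Self-dual Chow-Kunneth decompositions: the defect of a decomposition

`C` are the Chow groups (with rational coefficients), `H` is a Weil cohomology theory, and
`IsCK H X π` says that `π 0, π 1, ..., π (2 dim X)` is a Chow-Kunneth decomposition of `X`.
-/

open CategoryTheory AlgebraicGeometry

universe u v w

namespace Pool.Agent.Results.MP_8a7054_ag.NilpotentDefect

open Pool.Agent.H914 Pool.Agent.H914.VarClass Pool.Agent.H914.VarClass.Obj Pool.Agent.W492.BB
  Pool.Agent.W550.Corr Pool.Agent.W550.Murre Pool.Agent.W550.Dual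

variable {k : Type u} [Field k] {𝒱 : VarClass k} {C : TheoryData.{u, v, 0} 𝒱 ℚ} {K : Type w}
  [Field K]

theorem result (H : WeilTheoryData.{u, v, w} C K) [IsChow C] [IsWeil H] (hS : IsStandard H) :
    -- a Chow-Kunneth decomposition with nilpotent defect is conjugate to a self-dual one
    (∀ (X : 𝒱.Obj) (π : ℕ → C.A (X.prod X)), IsCK H X π → IsNil (defect π) →
      ∃ (ρ : ℕ → C.A (X.prod X)) (N N' : C.A (X.prod X)), IsCK H X ρ ∧ IsSelfDual ρ ∧
        H.cl N = 0 ∧ H.cl N' = 0 ∧ ConjugateBy π ρ N N') ∧
    -- so `X` has a self-dual Chow-Kunneth decomposition if and only if it has one with nilpotent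
    -- defect
    (∀ X : 𝒱.Obj, HasSelfDual H X ↔ HasNilDefect H X) ∧
    -- the defect is homologically trivial, and it is nilpotent in the following cases: all
    -- homologically trivial correspondences from `X` to `X` are nilpotent; the truncations of
    -- `π` and of its dual coincide; Murre's independence holds for `X × X`
    (∀ (X : 𝒱.Obj) (π : ℕ → C.A (X.prod X)), IsCK H X π → H.cl (defect π) = 0 ∧
      (HomNil H X ∨ SelfCompat π ∨ Independent H (X.prod X) → IsNil (defect π))) ∧
    -- if Murre's independence holds for `Y × Y` and `Y` has a Chow-Kunneth decomposition, then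
    -- every retract `X` of `Y` has a self-dual Chow-Kunneth decomposition
    (∀ X Y : 𝒱.Obj, IsRetract C X Y → HasDec H Y → Independent H (Y.prod Y) →
      HasSelfDual H X) := by
  have hI : HasIso C := hasIso_of_std H hS
  refine ⟨fun X π hπ hN => exists_selfDual hπ hN, fun X => hasSelfDual_iff,
    fun X π hπ => ⟨cl_defect hπ, fun h => ?_⟩, fun X Y hXY hY hi => ?_⟩
  · rcases h with h | h | h
    · exact h _ (deg_defect hπ) (cl_defect hπ)
    · exact nil_of_selfCompat hπ h
    · exact nil_of_selfCompat hπ (selfCompat_of_truncInd hπ (truncInd_of_square hS h))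
  · have h1 := (truncInd_of_square hS hi).retract hY hXY
    obtain ⟨⟨ρ, hρ⟩, h2⟩ := h1
    exact hasSelfDual_iff.2 ⟨ρ, hρ, nil_of_selfCompat hρ (selfCompat_of_truncInd hρ h2)⟩

end Pool.Agent.Results.MP_8a7054_ag.NilpotentDefect
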