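import Pool.Agent.W543.CK.OrthFin

/-!
# Self-dual Chow-Kunneth decompositions and orthogonal direct sums

`C` are the Chow groups (with rational coefficients), `H` is a Weil cohomology theory, and
`HasSelfDual H X` says that the variety `X` has a self-dual Chow-Kunneth decomposition. If the motive
of `Y` is the orthogonal direct sum of the motive of `X` and of a motive `N` which has a
Chow-Kunneth decomposition and whose homologically trivial endomorphisms are nilpotent, then `X` has
a self-dual Chow-Kunneth decomposition if and only if `Y` has one.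
-/

open CategoryTheory AlgebraicGeometry

universe u v w

namespace Pool.Agent.Results.MP_8a7054_ag.SelfDualCancellation

open Pool.Agent.H914 Pool.Agent.H914.VarClass Pool.Agent.H914.VarClass.Obj Pool.Agent.W492.BB
  Pool.Agent.W550.Corr Pool.Agent.W550.Murre Pool.Agent.W550.Dual Pool.Agent.W543.CK

variable {k : Type u} [Field k] {𝒱 : VarClass k} {C : TheoryData.{u, v, 0} 𝒱 ℚ} {K : Type w}
  [Field K]

theorem result (H : WeilTheoryData.{u, v, w} C K) [IsChow C] [IsWeil H] (hS : IsStandard H) :
    -- one step (for example a blow-up `Y` of `X`)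
    (∀ X Y : 𝒱.Obj, OrthLink H X Y → (HasSelfDual H X ↔ HasSelfDual H Y)) ∧
    -- chains of such steps in both directions (for example of blow-ups and blow-downs)
    (∀ X Y : 𝒱.Obj, Relation.EqvGen (OrthLink H) X Y → (HasSelfDual H X ↔ HasSelfDual H Y)) ∧
    -- if `Y` has a Chow-Kunneth decomposition, then a Chow-Kunneth decomposition of a motive
    -- `(Y, f)`, where `f` is symmetric and the homologically trivial endomorphisms of `(Y, f)` are
    -- nilpotent, can be replaced by a self-dual one
    (∀ (Y : 𝒱.Obj) (f : C.A (Y.prod Y)) (q : ℕ → C.A (Y.prod Y)), HasDec H Y → tpose f = f →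
      IsCKOf H f q → NilEnd H f → ∃ q' : ℕ → C.A (Y.prod Y), IsCKOf H f q' ∧ IsSelfDual q') := by
  have hI : HasIso C := hasIso_of_std H hS
  refine ⟨fun X Y h => selfDual_iff_of_link hS h, fun X Y h => selfDual_iff_of_chain hS h,
    fun Y f q hY hf hq hn => ?_⟩
  obtain ⟨π, hπ⟩ := hY
  exact exists_selfDualOf hπ hf hq hn

end Pool.Agent.Results.MP_8a7054_ag.SelfDualCancellation
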